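import Pool.Agent.Q198.SPC

set_option autoImplicit false
set_option maxRecDepth 100000

/-!
# The poset of connected spanning subgraphs is not always Sperner

The graph is a ring of six links: one edge, three cycles of length four and two cycles of length
seven (two internally disjoint paths of lengths 2, 2 and 3, 4 between consecutive ring vertices);
it has 22 vertices and 27 edges. Every level has at most 23376 members, and there is an antichain
with 23408 members. (The idea of such rings is due to helper290 of our team.)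
-/

namespace Pool.Agent.Results.MP_662923_co.RingOfCycles

open Finset Pool.Agent.Q198.SP

/-- supports of the antichain -/
def F₁ : Finset (Finset (Fin 11)) :=
  (powersetCard 5 (univ : Finset (Fin 11))).filter (fun T => Q T ∧ (0 : Fin 11) ∈ T)

def F₂ : Finset (Finset (Fin 11)) :=
  (powersetCard 6 (univ : Finset (Fin 11))).filter (fun T => Q T ∧ (0 : Fin 11) ∉ T)

noncomputable def A : Finset (Finset (Fin 27)) := (F₁ ∪ F₂).biUnion fib

lemma card_biUnion_fib (F : Finset (Finset (Fin 11))) :
    (F.biUnion fib).card = ∑ T ∈ F, ∏ p ∈ T, lens.getD p 0 := by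
  rw [card_biUnion fun T _ T' _ h => fib_disjoint h]
  exact sum_congr rfl fun T _ => (card_fib T).trans (prod_cnt T)

lemma card_A : A.card = 23408 := by
  unfold A
  rw [card_biUnion_fib, sum_union, ← anti_sum]
  · rfl
  · rw [Finset.disjoint_left]
    intro T h1 h2
    unfold F₁ at h1
    unfold F₂ at h2
    rw [mem_filter, mem_powersetCard] at h1 h2
    omega

lemma mem_A {D : Finset (Fin 27)} (h : D ∈ A) :
    Cond D ∧ ((D.card = 5 ∧ (0 : Fin 11) ∈ D.image pth) ∨
      (D.card = 6 ∧ (0 : Fin 11) ∉ D.image pth)) := by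
  classical
  obtain ⟨T, hT, hD⟩ := mem_biUnion.mp h
  have hc := card_of_mem_fib hD
  simp only [fib, mem_filter, mem_univ, true_and] at hD
  obtain ⟨hinj, rfl⟩ := hD
  rcases mem_union.mp hT with hT | hT
  · unfold F₁ at hT
    rw [mem_filter, mem_powersetCard] at hT
    exact ⟨⟨hinj, hT.2.1⟩, Or.inl ⟨hc.trans hT.1.2, hT.2.2⟩⟩
  · unfold F₂ at hT
    rw [mem_filter, mem_powersetCard] at hT
    exact ⟨⟨hinj, hT.2.1⟩, Or.inr ⟨hc.trans hT.1.2, hT.2.2⟩⟩

lemma cond_empty : Cond ∅ := by
  refine ⟨by simp, ?_⟩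
  rintro i j - ⟨h, -⟩
  simp [Br] at h

lemma level_le (k : ℕ) : {H : SimpleGraph (Fin 22) | H ≤ Gr ∅ ∧ H.Connected ∧
    H.edgeSet.ncard = k}.ncard ≤ 23376 := by
  classical
  set B : Finset (Finset (Fin 27)) :=
    ((powersetCard (27 - k) (univ : Finset (Fin 11))).filter Q).biUnion fib with hB
  have hsub : {H : SimpleGraph (Fin 22) | H ≤ Gr ∅ ∧ H.Connected ∧ H.edgeSet.ncard = k} ⊆
      Gr '' (B : Set (Finset (Fin 27))) := by
    rintro H ⟨h1, h2, h3⟩
    obtain ⟨D, rfl⟩ : ∃ D, H = Gr D := ⟨_, eq_Gr H h1⟩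
    refine ⟨D, ?_, rfl⟩
    have hc := cond_of_connected D h2
    rw [card_edges] at h3
    have hD : D.card ≤ 27 := by simpa using card_le_univ D
    have hcard : (D.image pth).card = D.card := card_image_of_injOn hc.1
    rw [mem_coe, hB, mem_biUnion]
    refine ⟨D.image pth, ?_, ?_⟩
    · rw [mem_filter, mem_powersetCard]
      exact ⟨⟨subset_univ _, by omega⟩, hc.2⟩
    · simp only [fib, mem_filter, mem_univ, true_and, and_true]
      exact hc.1
  have h1 : {H : SimpleGraph (Fin 22) | H ≤ Gr ∅ ∧ H.Connected ∧ H.edgeSet.ncard = k}.ncard ≤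
      B.card := by
    refine (Set.ncard_le_ncard hsub (Set.toFinite _)).trans ?_
    rw [Set.ncard_image_of_injective _ Gr_injective, Set.ncard_coe_finset]
  refine h1.trans ?_
  rw [hB, card_biUnion_fib]
  rcases lt_or_ge (27 - k) 12 with h | h
  · exact level_sum ⟨27 - k, h⟩
  · have hh : (univ : Finset (Fin 11)).card < 27 - k := by
      rw [card_univ, Fintype.card_fin]
      omega
    rw [powersetCard_eq_empty.mpr hh]
    simp

/-- **The poset of connected spanning subgraphs of a connected graph need not be Sperner.** -/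
theorem result : ∃ (V : Type) (_ : Fintype V) (G : SimpleGraph V), G.Connected ∧
    ∃ 𝒜 : Set (SimpleGraph V), (∀ H ∈ 𝒜, H ≤ G ∧ H.Connected) ∧
      IsAntichain (· ≤ ·) 𝒜 ∧
      ∀ k : ℕ, {H : SimpleGraph V | H ≤ G ∧ H.Connected ∧ H.edgeSet.ncard = k}.ncard < 𝒜.ncard := by
  refine ⟨Fin 22, inferInstance, Gr ∅, connected_of_cond ∅ cond_empty,
    Gr '' (A : Set (Finset (Fin 27))), ?_, ?_, ?_⟩
  · rintro _ ⟨D, hD, rfl⟩
    exact ⟨Gr_mono.mpr (empty_subset D), connected_of_cond D (mem_A hD).1⟩
  · rintro _ ⟨D, hD, rfl⟩ _ ⟨D', hD', rfl⟩ hne hle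
    have hsub : D' ⊆ D := Gr_mono.mp hle
    have hne' : D' ≠ D := fun h => hne (by rw [h])
    have hlt : D'.card < D.card := card_lt_card (hsub.ssubset_of_ne hne')
    have himg : D'.image pth ⊆ D.image pth := image_subset_image hsub
    rcases (mem_A hD).2 with h | h <;> rcases (mem_A hD').2 with h' | h'
    · omega
    · omega
    · exact h.2 (himg h'.2)
    · omega
  · intro k
    rw [Set.ncard_image_of_injective _ Gr_injective, Set.ncard_coe_finset, card_A]
    exact (level_le k).trans_lt (by norm_num)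

end Pool.Agent.Results.MP_662923_co.RingOfCycles
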